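import Mathlib

/-!
Combinatorics of the set `J p m` of all `k` with `m.choose k` not divisible by the prime `p`.
-/

set_option autoImplicit false

namespace Pool.Agent.Lib.MP_56e792_co

/-- all `k ≤ m` such that `p` does not divide `m.choose k`. -/
def J (p m : ℕ) : Finset ℕ := (Finset.range (m + 1)).filter (fun k => ¬ p ∣ m.choose k)

theorem mem_J {p m k : ℕ} : k ∈ J p m ↔ ¬ p ∣ m.choose k := by
  unfold J
  rw [Finset.mem_filter, Finset.mem_range]
  constructor
  · exact fun h => h.2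
  · intro h
    refine ⟨?_, h⟩
    by_contra hk
    rw [Nat.choose_eq_zero_of_lt (by omega)] at h
    exact h (dvd_zero p)

theorem le_of_mem_J {p m k : ℕ} (h : k ∈ J p m) : k ≤ m := by
  unfold J at h
  rw [Finset.mem_filter, Finset.mem_range] at h
  omega

/-- the elements `k` of `J` with `k + a` not in `J`. -/
def bad (p m a : ℕ) : Finset ℕ := (J p m).filter (fun k => k + a ∉ J p m)

theorem mem_bad {p m a k : ℕ} : k ∈ bad p m a ↔ k ∈ J p m ∧ k + a ∉ J p m := by
  unfold bad
  rw [Finset.mem_filter]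

theorem prime_choose {p : ℕ} (hp : p.Prime) {m : ℕ} (hm : m < p) {j : ℕ} (hj : j ≤ m) :
    ¬ p ∣ m.choose j := by
  intro h
  have h1 : p ∣ m.factorial := by
    rw [← Nat.choose_mul_factorial_mul_factorial hj, mul_assoc]
    exact Dvd.dvd.mul_right h _
  exact absurd ((Nat.Prime.dvd_factorial hp).mp h1) (by omega)

theorem zero_mem_J {p : ℕ} (hp : p.Prime) (m : ℕ) : 0 ∈ J p m := by
  rw [mem_J, Nat.choose_zero_right]
  exact hp.one_lt.ne' ∘ Nat.dvd_one.mp

theorem self_mem_J {p : ℕ} (hp : p.Prime) (m : ℕ) : m ∈ J p m := by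
  rw [mem_J, Nat.choose_self]
  exact hp.one_lt.ne' ∘ Nat.dvd_one.mp

theorem symm_mem_J {p m k : ℕ} (h : k ∈ J p m) : m - k ∈ J p m := by
  have hk := le_of_mem_J h
  rw [mem_J] at h ⊢
  rwa [Nat.choose_symm hk]

theorem lucas_one {p : ℕ} (hp : p.Prime) (m k : ℕ) :
    p ∣ m.choose k ↔ p ∣ (m % p).choose (k % p) ∨ p ∣ (m / p).choose (k / p) := by
  have : Fact p.Prime := ⟨hp⟩
  have h : m.choose k ≡ (m % p).choose (k % p) * (m / p).choose (k / p) [MOD p] :=
    Choose.choose_modEq_choose_mod_mul_choose_div_nat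
  rw [← hp.dvd_mul, Nat.dvd_iff_mod_eq_zero, Nat.dvd_iff_mod_eq_zero, h]

theorem lucas_pow {p : ℕ} (hp : p.Prime) (j : ℕ) : ∀ m k : ℕ,
    (p ∣ m.choose k ↔
      p ∣ (m % p ^ j).choose (k % p ^ j) ∨ p ∣ (m / p ^ j).choose (k / p ^ j)) := by
  induction j with
  | zero =>
    intro m k
    simp only [pow_zero, Nat.mod_one, Nat.div_one, Nat.choose_self]
    constructor
    · exact Or.inr
    · rintro (h | h)
      · exact absurd (Nat.dvd_one.mp h) hp.one_lt.ne'
      · exact h
  | succ j ih =>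
    intro m k
    rw [lucas_one hp m k, ih (m / p) (k / p), lucas_one hp (m % p ^ (j + 1)) (k % p ^ (j + 1))]
    have e1 : ∀ t : ℕ, t % p ^ (j + 1) % p = t % p := fun t =>
      Nat.mod_mod_of_dvd t (dvd_pow_self p (Nat.succ_ne_zero j))
    have e2 : ∀ t : ℕ, t % p ^ (j + 1) / p = t / p % p ^ j := by
      intro t
      rw [pow_succ, mul_comm, Nat.mod_mul_right_div_self]
    have e3 : ∀ t : ℕ, t / p / p ^ j = t / p ^ (j + 1) := by
      intro t
      rw [Nat.div_div_eq_div_mul, ← pow_succ']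
    rw [e1, e1, e2, e2, e3, e3, or_assoc]

theorem choose_pow_sub_one {p : ℕ} (hp : p.Prime) (v : ℕ) : ∀ i : ℕ, i ≤ p ^ v - 1 →
    ¬ p ∣ (p ^ v - 1).choose i := by
  induction v with
  | zero =>
    intro i hi
    simp only [pow_zero, Nat.sub_self] at hi ⊢
    have : i = 0 := by omega
    rw [this, Nat.choose_self]
    exact hp.one_lt.ne' ∘ Nat.dvd_one.mp
  | succ v ih =>
    intro i hi
    have hpos : 0 < p ^ v := pow_pos hp.pos v
    have hp1 := hp.one_lt
    have e0 : p ^ (v + 1) - 1 = (p - 1) + p * (p ^ v - 1) := by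
      have h1 : p ≤ p * p ^ v := Nat.le_mul_of_pos_right p hpos
      rw [pow_succ', Nat.mul_sub, mul_one]
      omega
    have e1 : (p ^ (v + 1) - 1) % p = p - 1 := by
      rw [e0, Nat.add_mul_mod_self_left]
      exact Nat.mod_eq_of_lt (by omega)
    have e2 : (p ^ (v + 1) - 1) / p = p ^ v - 1 := by
      rw [e0, Nat.add_mul_div_left _ _ hp.pos, Nat.div_eq_of_lt (by omega), zero_add]
    rw [lucas_one hp, e1, e2, not_or]
    refine ⟨prime_choose hp (by omega) ?_, ih _ ?_⟩
    · have := Nat.mod_lt i hp.pos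
      omega
    · rw [← e2]
      exact Nat.div_le_div_right hi

/-- all binomial coefficients of `c * p ^ v - 1`, `1 ≤ c ≤ p`, are prime to `p`. -/
theorem choose_mul_pow_sub_one {p : ℕ} (hp : p.Prime) (v c : ℕ) (hc : 1 ≤ c) (hcp : c < p)
    (i : ℕ) (hi : i ≤ c * p ^ v - 1) : ¬ p ∣ (c * p ^ v - 1).choose i := by
  have hpos : 0 < p ^ v := pow_pos hp.pos v
  have e0 : c * p ^ v - 1 = (p ^ v - 1) + p ^ v * (c - 1) := by
    obtain ⟨c', rfl⟩ : ∃ c', c = c' + 1 := ⟨c - 1, by omega⟩
    rw [Nat.add_sub_cancel, add_mul, one_mul, mul_comm (p ^ v) c']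
    omega
  have e1 : (c * p ^ v - 1) % p ^ v = p ^ v - 1 := by
    rw [e0, Nat.add_mul_mod_self_left]
    exact Nat.mod_eq_of_lt (by omega)
  have e2 : (c * p ^ v - 1) / p ^ v = c - 1 := by
    rw [e0, Nat.add_mul_div_left _ _ hpos, Nat.div_eq_of_lt (by omega), zero_add]
  rw [lucas_pow hp v, e1, e2, not_or]
  refine ⟨choose_pow_sub_one hp v _ ?_, prime_choose hp (by omega) ?_⟩
  · have := Nat.mod_lt i hpos
    omega
  · rw [← e2]
    exact Nat.div_le_div_right hi

/-- decomposition of `m` : last block. -/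
theorem decomp {p : ℕ} (hp : p.Prime) (m : ℕ) : ∃ v c n : ℕ, 1 ≤ c ∧ c < p ∧
    m = (c * p ^ v - 1) + p ^ (v + 1) * n := by
  obtain ⟨v, c, hc, hm⟩ := Nat.exists_eq_pow_mul_and_not_dvd (n := m + 1) (by omega) p hp.one_lt.ne'
  refine ⟨v, c % p, c / p, ?_, Nat.mod_lt _ hp.pos, ?_⟩
  · rcases Nat.eq_zero_or_pos (c % p) with h0 | h0
    · exact absurd (Nat.dvd_of_mod_eq_zero h0) hc
    · exact h0
  · have hpos : 0 < p ^ v := pow_pos hp.pos v
    have hc1 : 1 ≤ c % p := by
      rcases Nat.eq_zero_or_pos (c % p) with h0 | h0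
      · exact absurd (Nat.dvd_of_mod_eq_zero h0) hc
      · exact h0
    have h1 : 1 ≤ c % p * p ^ v := Nat.mul_pos hc1 hpos
    have h2 : m + 1 = c % p * p ^ v + p ^ (v + 1) * (c / p) := by
      calc m + 1 = p ^ v * c := hm
        _ = p ^ v * (c % p + p * (c / p)) := by rw [Nat.mod_add_div]
        _ = c % p * p ^ v + p ^ (v + 1) * (c / p) := by rw [pow_succ]; ring
    omega

/-- membership in `J` by blocks. -/
theorem mem_J_block {p : ℕ} (hp : p.Prime) {v c n : ℕ} (hc : 1 ≤ c) (hcp : c < p) (k : ℕ) :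
    k ∈ J p ((c * p ^ v - 1) + p ^ (v + 1) * n) ↔
      k % p ^ (v + 1) ≤ c * p ^ v - 1 ∧ k / p ^ (v + 1) ∈ J p n := by
  have hpos : 0 < p ^ v := pow_pos hp.pos v
  have hR : 0 < p ^ (v + 1) := pow_pos hp.pos _
  have hlt : c * p ^ v - 1 < p ^ (v + 1) := by
    have : c * p ^ v ≤ p * p ^ v := Nat.mul_le_mul_right _ hcp.le
    have h3 : 1 ≤ c * p ^ v := Nat.mul_pos hc hpos
    rw [pow_succ']
    omega
  rw [mem_J, mem_J, lucas_pow hp (v + 1), Nat.add_mul_mod_self_left, Nat.mod_eq_of_lt hlt,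
    Nat.add_mul_div_left _ _ hR, Nat.div_eq_of_lt hlt, zero_add, not_or]
  constructor
  · rintro ⟨h1, h2⟩
    refine ⟨?_, h2⟩
    by_contra hcon
    rw [Nat.choose_eq_zero_of_lt (by omega)] at h1
    exact h1 (dvd_zero p)
  · rintro ⟨h1, h2⟩
    exact ⟨choose_mul_pow_sub_one hp v c hc hcp _ h1, h2⟩

/-- the good shifts. -/
def Good (p m a : ℕ) : Prop := (∃ r, a = p ^ r) ∧ a ∈ J p m ∧
  (∀ b ∈ J p m, 1 ≤ b → b < a → ∃ k ∈ J p m, k < a ∧ k + b ∉ J p m) ∧
  (∀ k ∈ J p m, k < a → k + a ∈ J p m)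

section block

variable {p m R M n : ℕ}

theorem block_mod (_hMR : M + 2 ≤ R) {κ : ℕ} (hκ : κ < R) (k' : ℕ) : (κ + R * k') % R = κ := by
  rw [Nat.add_mul_mod_self_left]; exact Nat.mod_eq_of_lt hκ

theorem block_div (_hMR : M + 2 ≤ R) {κ : ℕ} (hκ : κ < R) (k' : ℕ) : (κ + R * k') / R = k' := by
  rw [Nat.add_mul_div_left _ _ (by omega), Nat.div_eq_of_lt hκ, zero_add]

/-- the critical residue. -/
theorem block_crit (hMR : M + 2 ≤ R) (a : ℕ) (ha : a % R ≠ 0) :
    ∃ κ, κ ≤ M ∧ M < κ + a % R ∧ κ + a % R < R ∧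
      (a % R ≤ M → κ = M + 1 - a % R) ∧ (M < a % R → κ = 0) := by
  have h1 : a % R < R := Nat.mod_lt _ (by omega)
  by_cases h : a % R ≤ M
  · exact ⟨M + 1 - a % R, by omega, by omega, by omega, fun _ => rfl, fun h' => by omega⟩
  · exact ⟨0, by omega, by omega, by omega, fun h' => absurd h' h, fun _ => rfl⟩

theorem block_bad_mem (hMR : M + 2 ≤ R) (hmem : ∀ k, k ∈ J p m ↔ k % R ≤ M ∧ k / R ∈ J p n)
    {a κ k' : ℕ} (hκ : κ ≤ M) (h1 : M < κ + a % R) (h2 : κ + a % R < R) (hk' : k' ∈ J p n) :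
    κ + R * k' ∈ bad p m a := by
  rw [mem_bad, hmem, block_mod hMR (by omega), block_div hMR (by omega)]
  refine ⟨⟨hκ, hk'⟩, ?_⟩
  rw [hmem]
  rintro ⟨h3, -⟩
  have e : κ + R * k' + a = (κ + a % R) + R * (k' + a / R) := by
    have := Nat.mod_add_div a R
    calc κ + R * k' + a = κ + R * k' + (a % R + R * (a / R)) := by rw [this]
      _ = _ := by ring
  rw [e, block_mod hMR h2] at h3
  omega

theorem block_L1 (hMR : M + 2 ≤ R) (hmem : ∀ k, k ∈ J p m ↔ k % R ≤ M ∧ k / R ∈ J p n)
    {a : ℕ} (ha : a % R ≠ 0) : (J p n).card ≤ (bad p m a).card := by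
  obtain ⟨κ, hκ, h1, h2, -, -⟩ := block_crit hMR a ha
  refine Finset.card_le_card_of_injOn (fun k' => κ + R * k') ?_ ?_
  · intro k' hk'
    exact block_bad_mem hMR hmem hκ h1 h2 hk'
  · intro k1 _ k2 _ h
    have h3 : R * k1 = R * k2 := Nat.add_left_cancel h
    exact Nat.eq_of_mul_eq_mul_left (by omega) h3

theorem block_L4 (hp : p.Prime) (hMR : M + 2 ≤ R) (hm : m = M + R * n)
    (hmem : ∀ k, k ∈ J p m ↔ k % R ≤ M ∧ k / R ∈ J p n)
    {a : ℕ} (ha : a % R ≠ 0) (ha1 : a ≠ 1) (hM : 1 ≤ M) :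
    (J p n).card + 1 ≤ (bad p m a).card := by
  classical
  obtain ⟨κ, hκ, h1, h2, h3, h4⟩ := block_crit hMR a ha
  have hale : a % R ≤ a := Nat.mod_le _ _
  -- the extra element
  obtain ⟨κ', hκ', hne, hbig⟩ : ∃ κ', κ' ≤ M ∧ κ' ≠ κ ∧ M < κ' + a := by
    by_cases h : a % R ≤ M
    · have e1 := h3 h
      by_cases h5 : a % R = 1
      · refine ⟨0, by omega, by omega, ?_⟩
        have h6 := Nat.mod_add_div a R
        have h7 : a / R ≠ 0 := by
          intro h0
          rw [h0, mul_zero] at h6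
          omega
        have h8 : R * 1 ≤ R * (a / R) := Nat.mul_le_mul_left _ (Nat.one_le_iff_ne_zero.mpr h7)
        omega
      · exact ⟨M, le_refl _, by omega, by omega⟩
    · have e1 := h4 (by omega)
      exact ⟨M, le_refl _, by omega, by omega⟩
  have hex : κ' + R * n ∈ bad p m a := by
    rw [mem_bad]
    refine ⟨?_, fun hcon => ?_⟩
    · rw [hmem, block_mod hMR (by omega), block_div hMR (by omega)]
      exact ⟨hκ', self_mem_J hp n⟩
    · have := le_of_mem_J hcon
      omega
  have hsub : insert (κ' + R * n) ((J p n).image (fun k' => κ + R * k')) ⊆ bad p m a := by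
    intro z hz
    rw [Finset.mem_insert, Finset.mem_image] at hz
    rcases hz with rfl | ⟨k', hk', rfl⟩
    · exact hex
    · exact block_bad_mem hMR hmem hκ h1 h2 hk'
  have hnot : κ' + R * n ∉ (J p n).image (fun k' => κ + R * k') := by
    rw [Finset.mem_image]
    rintro ⟨k', -, h⟩
    have h5 : (κ + R * k') % R = (κ' + R * n) % R := by rw [h]
    rw [block_mod hMR (by omega), block_mod hMR (by omega)] at h5
    exact hne h5.symm
  have hinj : ((J p n).image (fun k' => κ + R * k')).card = (J p n).card := by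
    refine Finset.card_image_of_injective _ ?_
    intro k1 k2 h
    have h3 : R * k1 = R * k2 := Nat.add_left_cancel h
    exact Nat.eq_of_mul_eq_mul_left (by omega) h3
  calc (J p n).card + 1 = (insert (κ' + R * n) ((J p n).image (fun k' => κ + R * k'))).card := by
        rw [Finset.card_insert_of_notMem hnot, hinj]
    _ ≤ (bad p m a).card := Finset.card_le_card hsub

theorem block_L3 (hMR : M + 2 ≤ R) (hmem : ∀ k, k ∈ J p m ↔ k % R ≤ M ∧ k / R ∈ J p n) :
    (bad p m 1).card ≤ (J p n).card := by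
  refine Finset.card_le_card_of_injOn (fun k => k / R) ?_ ?_
  · intro k hk
    rw [Finset.mem_coe, mem_bad, hmem] at hk
    exact hk.1.2
  · have key : ∀ k ∈ bad p m 1, k % R = M := by
      intro k hk
      rw [mem_bad, hmem, hmem] at hk
      by_contra hne
      apply hk.2
      have h1 : k % R < M := lt_of_le_of_ne hk.1.1 hne
      have e : k + 1 = (k % R + 1) + R * (k / R) := by
        have := Nat.mod_add_div k R
        omega
      rw [e, block_mod hMR (by omega), block_div hMR (by omega)]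
      exact ⟨by omega, hk.1.2⟩
    intro k1 hk1 k2 hk2 h
    have e1 := key k1 hk1
    have e2 := key k2 hk2
    simp only at h
    rw [← Nat.mod_add_div k1 R, ← Nat.mod_add_div k2 R, e1, e2, h]

theorem block_add (hMR : M + 2 ≤ R) (hmem : ∀ k, k ∈ J p m ↔ k % R ≤ M ∧ k / R ∈ J p n)
    {κ : ℕ} (hκ : κ ≤ M) (k' a' : ℕ) :
    κ + R * k' + R * a' ∈ J p m ↔ k' + a' ∈ J p n := by
  have e : κ + R * k' + R * a' = κ + R * (k' + a') := by ring
  rw [e, hmem, block_mod hMR (by omega), block_div hMR (by omega)]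
  exact ⟨fun h => h.2, fun h => ⟨hκ, h⟩⟩

theorem block_mk (hMR : M + 2 ≤ R) (hmem : ∀ k, k ∈ J p m ↔ k % R ≤ M ∧ k / R ∈ J p n)
    {κ : ℕ} (hκ : κ ≤ M) (k' : ℕ) : κ + R * k' ∈ J p m ↔ k' ∈ J p n := by
  have := block_add hMR hmem hκ k' 0
  simpa using this

theorem block_L2 (hMR : M + 2 ≤ R) (hmem : ∀ k, k ∈ J p m ↔ k % R ≤ M ∧ k / R ∈ J p n)
    (a' : ℕ) : (bad p m (R * a')).card = (M + 1) * (bad p n a').card := by
  have h : (bad p m (R * a')).card = (Finset.range (M + 1) ×ˢ bad p n a').card := by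
    refine Finset.card_nbij' (fun k => (k % R, k / R)) (fun P => P.1 + R * P.2) ?_ ?_ ?_ ?_
    · intro k hk
      rw [Finset.mem_coe, mem_bad] at hk
      have h1 := (hmem k).mp hk.1
      rw [Finset.mem_coe, Finset.mem_product, Finset.mem_range, mem_bad]
      refine ⟨Nat.lt_succ_of_le h1.1, h1.2, fun hcon => hk.2 ?_⟩
      have := (block_add hMR hmem h1.1 (k / R) a').mpr hcon
      rwa [Nat.mod_add_div] at this
    · intro P hP
      rw [Finset.mem_coe, Finset.mem_product, Finset.mem_range, mem_bad] at hP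
      rw [Finset.mem_coe, mem_bad]
      have h1 : P.1 ≤ M := by omega
      refine ⟨(block_mk hMR hmem h1 P.2).mpr hP.2.1, fun hcon => hP.2.2 ?_⟩
      exact (block_add hMR hmem h1 P.2 a').mp hcon
    · intro k _
      exact Nat.mod_add_div k R
    · intro P hP
      rw [Finset.mem_coe, Finset.mem_product, Finset.mem_range, mem_bad] at hP
      simp only
      rw [block_mod hMR (by omega), block_div hMR (by omega)]
  rw [h, Finset.card_product, Finset.card_range]

theorem block_good (hp : p.Prime) (hMR : M + 2 ≤ R) {v : ℕ} (hR : R = p ^ v)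
    (hmem : ∀ k, k ∈ J p m ↔ k % R ≤ M ∧ k / R ∈ J p n) {a' : ℕ} (h : Good p n a') :
    Good p m (R * a') := by
  obtain ⟨⟨r, hr⟩, ha, h3, h4⟩ := h
  have ha' : 1 ≤ a' := by rw [hr]; exact Nat.one_le_iff_ne_zero.mpr (pow_ne_zero _ hp.ne_zero)
  have hRa : R ≤ R * a' := Nat.le_mul_of_pos_right _ ha'
  refine ⟨⟨v + r, by rw [hR, hr, pow_add]⟩, ?_, ?_, ?_⟩
  · have := (block_mk hMR hmem (Nat.zero_le M) a').mpr ha
    rwa [zero_add] at this
  · intro b hb hb1 hba
    have hb' := (hmem b).mp hb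
    have hbe := Nat.mod_add_div b R
    by_cases h0 : b % R = 0
    · rw [h0, zero_add] at hbe
      have hb2 : 1 ≤ b / R := by
        rcases Nat.eq_zero_or_pos (b / R) with h5 | h5
        · rw [h5, mul_zero] at hbe; omega
        · exact h5
      have hb3 : b / R < a' := by
        rw [Nat.div_lt_iff_lt_mul (by omega), mul_comm]
        exact hba
      obtain ⟨k, hk, hka, hkb⟩ := h3 _ hb'.2 hb2 hb3
      refine ⟨R * k, ?_, ?_, ?_⟩
      · have := (block_mk hMR hmem (Nat.zero_le M) k).mpr hk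
        rwa [zero_add] at this
      · exact Nat.mul_lt_mul_of_pos_left hka (by omega)
      · intro hcon
        apply hkb
        have := (block_add hMR hmem (Nat.zero_le M) k (b / R)).mp (by rw [zero_add, hbe]; exact hcon)
        exact this
    · refine ⟨M + 1 - b % R, ?_, by omega, ?_⟩
      · have := (block_mk hMR hmem (show M + 1 - b % R ≤ M by omega) 0).mpr (zero_mem_J hp n)
        rwa [mul_zero, add_zero] at this
      · intro hcon
        have e : M + 1 - b % R + b = (M + 1) + R * (b / R) := by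
          have := hb'.1
          omega
        rw [e, hmem, block_mod hMR (by omega)] at hcon
        omega
  · intro k hk hka
    have hk' := (hmem k).mp hk
    have hk3 : k / R < a' := by
      rw [Nat.div_lt_iff_lt_mul (by omega), mul_comm]
      exact hka
    have := (block_add hMR hmem hk'.1 (k / R) a').mpr (h4 _ hk'.2 hk3)
    rwa [Nat.mod_add_div] at this

theorem good_one (hp : p.Prime) (hMR : M + 2 ≤ R) (hM : 1 ≤ M)
    (hmem : ∀ k, k ∈ J p m ↔ k % R ≤ M ∧ k / R ∈ J p n) : Good p m 1 := by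
  have h1 : 1 ∈ J p m := by
    have := (block_mk hMR hmem hM 0).mpr (zero_mem_J hp n)
    rwa [mul_zero, add_zero] at this
  refine ⟨⟨0, rfl⟩, h1, ?_, ?_⟩
  · intro b _ hb1 hb2; omega
  · intro k _ hk
    have : k = 0 := by omega
    rw [this, zero_add]; exact h1

end block

/-- **The combinatorial theorem.** -/
theorem comb {p : ℕ} (hp : p.Prime) : ∀ m : ℕ, 1 ≤ m → ∃ σ, Good p m σ ∧ ∀ a, 1 ≤ a →
    (bad p m σ).card ≤ (bad p m a).card ∧
      ((bad p m a).card ≤ (bad p m σ).card → Good p m a) := by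
  intro m
  induction m using Nat.strong_induction_on with
  | _ m ih =>
  intro hm1
  obtain ⟨v, c, n, hc, hcp, hm⟩ := decomp hp m
  set M := c * p ^ v - 1 with hMdef
  set R := p ^ (v + 1) with hRdef
  have hpos : 0 < p ^ v := pow_pos hp.pos v
  have hMR : M + 2 ≤ R := by
    have h1 : c * p ^ v ≤ (p - 1) * p ^ v := Nat.mul_le_mul_right _ (by omega)
    have h2 : (p - 1) * p ^ v + p ^ v = p * p ^ v := by
      have h3 : p - 1 + 1 = p := Nat.sub_add_cancel hp.one_lt.le
      calc (p - 1) * p ^ v + p ^ v = (p - 1 + 1) * p ^ v := by ring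
        _ = p * p ^ v := by rw [h3]
    have h3 : 1 ≤ c * p ^ v := Nat.mul_pos hc hpos
    rw [hRdef, pow_succ']
    omega
  have hmem : ∀ k, k ∈ J p m ↔ k % R ≤ M ∧ k / R ∈ J p n := by
    intro k
    rw [hm]
    exact mem_J_block hp hc hcp k
  have hnm : n < m ∨ n = 0 := by
    rcases Nat.eq_zero_or_pos n with h0 | h0
    · exact Or.inr h0
    · left
      have : 2 * n ≤ R * n := Nat.mul_le_mul_right _ (by omega)
      omega
  rcases Nat.eq_zero_or_pos n with hn0 | hn0
  · -- base case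
    have hM1 : 1 ≤ M := by rw [hn0, mul_zero, add_zero] at hm; omega
    have hJ0 : (J p n).card = 1 := by
      rw [hn0]
      have : J p 0 = {0} := by
        ext k
        rw [Finset.mem_singleton]
        constructor
        · intro h; have := le_of_mem_J h; omega
        · rintro rfl; exact zero_mem_J hp 0
      rw [this, Finset.card_singleton]
    have h3 := block_L3 hMR hmem
    refine ⟨1, good_one hp hMR hM1 hmem, ?_⟩
    intro a ha
    by_cases ha0 : a % R = 0
    · have e : a = R * (a / R) := by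
        have := Nat.mod_add_div a R
        omega
      have ha' : 1 ≤ a / R := by
        rcases Nat.eq_zero_or_pos (a / R) with h5 | h5
        · rw [h5, mul_zero] at e; omega
        · exact h5
      have hb : 1 ≤ (bad p n (a / R)).card := by
        rw [Nat.one_le_iff_ne_zero, Finset.card_ne_zero]
        refine ⟨0, ?_⟩
        rw [mem_bad]
        refine ⟨zero_mem_J hp n, fun hcon => ?_⟩
        have := le_of_mem_J hcon
        omega
      have h2 := block_L2 hMR hmem (a / R)
      rw [← e] at h2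
      have h5 : 2 * 1 ≤ (M + 1) * (bad p n (a / R)).card := Nat.mul_le_mul (by omega) hb
      exact ⟨by omega, fun h => by omega⟩
    · have h1 := block_L1 hMR hmem ha0
      refine ⟨by omega, fun h => ?_⟩
      by_cases ha1 : a = 1
      · rw [ha1]; exact good_one hp hMR hM1 hmem
      · have h4 := block_L4 hp hMR hm hmem ha0 ha1 hM1
        omega
  · obtain ⟨σ, hσ, hmin⟩ := ih n (by omega) hn0
    have hσ1 : 1 ≤ σ := by
      obtain ⟨⟨r, hr⟩, -⟩ := hσ
      rw [hr]; exact Nat.one_le_iff_ne_zero.mpr (pow_ne_zero _ hp.ne_zero)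
    have hlt : (bad p n σ).card < (J p n).card := by
      have hsub : bad p n σ ⊆ J p n := Finset.filter_subset _ _
      apply Finset.card_lt_card
      rw [Finset.ssubset_iff_of_subset hsub]
      refine ⟨0, zero_mem_J hp n, ?_⟩
      rw [mem_bad, zero_add]
      exact fun h => h.2 hσ.2.1
    have h3 := block_L3 hMR hmem
    have h2σ := block_L2 hMR hmem σ
    by_cases hcase : (J p n).card ≤ (M + 1) * (bad p n σ).card
    · have hM1 : 1 ≤ M := by
        by_contra hcon
        have : M = 0 := by omega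
        rw [this, zero_add, one_mul] at hcase
        omega
      refine ⟨1, good_one hp hMR hM1 hmem, ?_⟩
      intro a ha
      by_cases ha0 : a % R = 0
      · have e : a = R * (a / R) := by
          have := Nat.mod_add_div a R
          omega
        have ha' : 1 ≤ a / R := by
          rcases Nat.eq_zero_or_pos (a / R) with h5 | h5
          · rw [h5, mul_zero] at e; omega
          · exact h5
        have h2 := block_L2 hMR hmem (a / R)
        rw [← e] at h2
        obtain ⟨h5, h6⟩ := hmin (a / R) ha'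
        have h7 : (M + 1) * (bad p n σ).card ≤ (M + 1) * (bad p n (a / R)).card :=
          Nat.mul_le_mul_left _ h5
        refine ⟨by omega, fun h => ?_⟩
        have h8 : (M + 1) * (bad p n (a / R)).card ≤ (M + 1) * (bad p n σ).card := by omega
        have h9 := Nat.le_of_mul_le_mul_left h8 (by omega)
        rw [e]
        exact block_good hp hMR hRdef hmem (h6 h9)
      · have h1 := block_L1 hMR hmem ha0
        refine ⟨by omega, fun h => ?_⟩
        by_cases ha1 : a = 1
        · rw [ha1]; exact good_one hp hMR hM1 hmem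
        · have h4 := block_L4 hp hMR hm hmem ha0 ha1 hM1
          omega
    · refine ⟨R * σ, block_good hp hMR hRdef hmem hσ, ?_⟩
      intro a ha
      by_cases ha0 : a % R = 0
      · have e : a = R * (a / R) := by
          have := Nat.mod_add_div a R
          omega
        have ha' : 1 ≤ a / R := by
          rcases Nat.eq_zero_or_pos (a / R) with h5 | h5
          · rw [h5, mul_zero] at e; omega
          · exact h5
        have h2 := block_L2 hMR hmem (a / R)
        rw [← e] at h2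
        obtain ⟨h5, h6⟩ := hmin (a / R) ha'
        have h7 : (M + 1) * (bad p n σ).card ≤ (M + 1) * (bad p n (a / R)).card :=
          Nat.mul_le_mul_left _ h5
        refine ⟨by omega, fun h => ?_⟩
        have h8 : (M + 1) * (bad p n (a / R)).card ≤ (M + 1) * (bad p n σ).card := by omega
        have h9 := Nat.le_of_mul_le_mul_left h8 (by omega)
        rw [e]
        exact block_good hp hMR hRdef hmem (h6 h9)
      · have h1 := block_L1 hMR hmem ha0
        exact ⟨by omega, fun h => by omega⟩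

/-- **The window count.**  Let `W = p ^ ρ` and assume that no binomial coefficient of
`m / W ≥ 1` is divisible by `p`. -/
theorem window {p : ℕ} (hp : p.Prime) {m ρ : ℕ}
    (hκ : ∀ i, i ≤ m / p ^ ρ → ¬ p ∣ (m / p ^ ρ).choose i) {a : ℕ} (ha : a ∈ J p m)
    (haW : p ^ ρ ≤ a) :
    (bad p m (p ^ ρ)).card ≤ ((J p m).filter (fun l => a ≤ l + p ^ ρ ∧ l < a)).card := by
  set W := p ^ ρ with hW
  have hW0 : 0 < W := pow_pos hp.pos ρ
  have hmem : ∀ k, k ∈ J p m ↔ k % W ∈ J p (m % W) ∧ k / W ≤ m / W := by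
    intro k
    rw [mem_J, mem_J, lucas_pow hp ρ, not_or]
    constructor
    · rintro ⟨h1, h2⟩
      refine ⟨h1, ?_⟩
      by_contra hcon
      rw [Nat.choose_eq_zero_of_lt (lt_of_not_ge hcon)] at h2
      exact h2 (dvd_zero p)
    · rintro ⟨h1, h2⟩
      exact ⟨h1, hκ _ h2⟩
  have hbad : ∀ k ∈ bad p m W, k / W = m / W := by
    intro k hk
    rw [mem_bad, hmem, hmem, Nat.add_mod_right, Nat.add_div_right _ hW0] at hk
    by_contra hne
    have h1 : k / W + 1 ≤ m / W := by omega
    exact hk.2 ⟨hk.1.1, h1⟩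
  have ha' := (hmem a).mp ha
  have hadiv : 1 ≤ a / W := (Nat.one_le_div_iff hW0).mpr haW
  have hae := Nat.mod_add_div a W
  have hlow : ∀ t q' : ℕ, t < W → (t + W * q') % W = t ∧ (t + W * q') / W = q' := by
    intro t q' ht
    refine ⟨?_, ?_⟩
    · rw [Nat.add_mul_mod_self_left]; exact Nat.mod_eq_of_lt ht
    · rw [Nat.add_mul_div_left _ _ hW0, Nat.div_eq_of_lt ht, zero_add]
  refine Finset.card_le_card_of_injOn
    (fun k => if k % W < a % W then k % W + W * (a / W) else k % W + W * (a / W - 1)) ?_ ?_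
  · intro k hk
    rw [Finset.mem_coe] at hk
    have hk1 := (hmem k).mp (mem_bad.mp hk).1
    have hkW : k % W < W := Nat.mod_lt _ hW0
    have haW' : a % W < W := Nat.mod_lt _ hW0
    obtain ⟨t, ht⟩ : ∃ t, a / W = t + 1 := ⟨a / W - 1, by omega⟩
    have hmul : W * (a / W) = W * t + W := by rw [ht]; ring
    have hsub : a / W - 1 = t := by omega
    simp only
    split_ifs with h
    · rw [Finset.mem_coe, Finset.mem_filter, hmem, (hlow _ _ hkW).1, (hlow _ _ hkW).2]
      refine ⟨⟨hk1.1, ha'.2⟩, by omega, by omega⟩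
    · rw [Finset.mem_coe, Finset.mem_filter, hmem, (hlow _ _ hkW).1, (hlow _ _ hkW).2, hsub]
      refine ⟨⟨hk1.1, by omega⟩, by omega, by omega⟩
  · intro k1 hk1 k2 hk2 h
    rw [Finset.mem_coe] at hk1 hk2
    have e1 := hbad k1 hk1
    have e2 := hbad k2 hk2
    have hk1W : k1 % W < W := Nat.mod_lt _ hW0
    have hk2W : k2 % W < W := Nat.mod_lt _ hW0
    have h3 : k1 % W = k2 % W := by
      have h4 := congrArg (fun t => t % W) h
      simp only at h4
      split_ifs at h4 with h5 h6 h6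
      · rwa [(hlow _ _ hk1W).1, (hlow _ _ hk2W).1] at h4
      · rwa [(hlow _ _ hk1W).1, (hlow _ _ hk2W).1] at h4
      · rwa [(hlow _ _ hk1W).1, (hlow _ _ hk2W).1] at h4
      · rwa [(hlow _ _ hk1W).1, (hlow _ _ hk2W).1] at h4
    rw [← Nat.mod_add_div k1 W, ← Nat.mod_add_div k2 W, e1, e2, h3]

/-- if no binomial coefficient of `m` is divisible by `p` then only the shift `1` has at most
one bad element. -/
theorem bad_full {p : ℕ} (hp : p.Prime) {m : ℕ} (hm : 1 ≤ m)
    (hκ : ∀ i, i ≤ m → ¬ p ∣ m.choose i) {a : ℕ} (ha1 : 1 ≤ a)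
    (ha : (bad p m a).card ≤ (bad p m 1).card) : a = 1 := by
  have h1 : (bad p m 1).card ≤ 1 := by
    rw [Finset.card_le_one]
    have key : ∀ k ∈ bad p m 1, k = m := by
      intro k hk
      rw [mem_bad] at hk
      have h2 := le_of_mem_J hk.1
      by_contra hne
      exact hk.2 (mem_J.mpr (hκ _ (by omega)))
    intro x hx y hy
    rw [key x hx, key y hy]
  by_contra hne
  have hsub : ({m - 1, m} : Finset ℕ) ⊆ bad p m a := by
    intro z hz
    rw [Finset.mem_insert, Finset.mem_singleton] at hz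
    rw [mem_bad]
    rcases hz with rfl | rfl
    · refine ⟨mem_J.mpr (hκ _ (by omega)), fun hcon => ?_⟩
      have := le_of_mem_J hcon
      omega
    · refine ⟨self_mem_J hp _, fun hcon => ?_⟩
      have := le_of_mem_J hcon
      omega
  have h2 := Finset.card_le_card hsub
  rw [Finset.card_pair (by omega)] at h2
  omega

end Pool.Agent.Lib.MP_56e792_co
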