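import Mathlib
import Pool.Agent.Lib.MP_56e792_co.Comb

/-!
Two injective families `x`, `y` with `(y i - y j) ^ m = (x i - x j) ^ m`: the polynomial part.
-/

set_option autoImplicit false

namespace Pool.Agent.Lib.MP_56e792_co

open Polynomial Finset

variable {K : Type*} [Field K] {ι : Type*}

theorem coeff_X_sub_C_pow' (r : K) (n k : ℕ) :
    ((X - C r) ^ n : K[X]).coeff k = (-r) ^ (n - k) * (n.choose k : K) := by
  rw [sub_eq_add_neg, ← C_neg, Polynomial.coeff_X_add_C_pow]

theorem dual_vec [DecidableEq ι] (m : ℕ) (S : Finset ι) (y : ι → K) (hy : Set.InjOn y S)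
    (hS : S.card = m + 1) (l0 : ℕ) :
    ∃ c : ι → K, ∀ l, l ≤ m → ∑ j ∈ S, c j * y j ^ l = if l0 = l then 1 else 0 := by
  refine ⟨fun j => (Lagrange.basis S y j).coeff l0, ?_⟩
  intro l hl
  have hdeg : (X ^ l : K[X]).degree < (S.card : WithBot ℕ) := by
    rw [hS, Polynomial.degree_X_pow]
    exact_mod_cast Nat.lt_succ_of_le hl
  have h := Lagrange.eq_interpolate hy hdeg
  rw [Lagrange.interpolate_apply] at h
  have h2 := congrArg (fun P : K[X] => P.coeff l0) h
  simp only [Polynomial.coeff_X_pow, Polynomial.finsetSum_coeff, Polynomial.coeff_C_mul,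
    Polynomial.eval_pow, Polynomial.eval_X] at h2
  rw [h2]
  exact Finset.sum_congr rfl (fun j _ => mul_comm _ _)

theorem coeff_sum_pow (m : ℕ) (S : Finset ι) (c z : ι → K) (l : ℕ) :
    (∑ j ∈ S, C (c j) * (X - C (z j)) ^ m : K[X]).coeff l =
      (-1) ^ (m - l) * (m.choose l : K) * ∑ j ∈ S, c j * z j ^ (m - l) := by
  rw [Polynomial.finsetSum_coeff, Finset.mul_sum]
  refine Finset.sum_congr rfl ?_
  intro j _
  rw [Polynomial.coeff_C_mul, coeff_X_sub_C_pow', neg_pow]
  ring

/-- the transfer of a monomial in `y` to a polynomial in `x`. -/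
theorem transfer [DecidableEq ι] (m : ℕ) (U : Finset ι) (x y : ι → K) (hy : Set.InjOn y U)
    (hU : m + 1 ≤ U.card)
    (h : ∀ i ∈ U, ∀ j ∈ U, (y i - y j) ^ m = (x i - x j) ^ m) (k : ℕ) (hk : k ≤ m)
    (hkc : (m.choose k : K) ≠ 0) :
    ∃ F : K[X], (∀ l, F.coeff l ≠ 0 → (m.choose l : K) ≠ 0) ∧
      (∀ i ∈ U, F.eval (x i) = y i ^ k) ∧ F.coeff m = if k = m then 1 else 0 := by
  obtain ⟨S, hSU, hS⟩ := Finset.exists_subset_card_eq hU
  obtain ⟨c, hc⟩ := dual_vec m S y (hy.mono (by exact_mod_cast hSU)) hS (m - k)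
  set u : K := (-1) ^ (m - k) * (m.choose k : K) with hu
  have hu0 : u ≠ 0 := mul_ne_zero (pow_ne_zero _ (neg_ne_zero.mpr one_ne_zero)) hkc
  have hPy : (∑ j ∈ S, C (c j) * (X - C (y j)) ^ m : K[X]) = C u * X ^ k := by
    ext l
    rw [coeff_sum_pow, Polynomial.coeff_C_mul_X_pow]
    by_cases hl : l ≤ m
    · rw [hc (m - l) (Nat.sub_le _ _)]
      by_cases hlk : l = k
      · rw [hlk, if_pos rfl, if_pos rfl, mul_one]
      · rw [if_neg hlk, if_neg (by omega), mul_zero]
    · rw [Nat.choose_eq_zero_of_lt (by omega), if_neg (by omega)]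
      simp
  have heval : ∀ i ∈ U, ∑ j ∈ S, c j * (x i - x j) ^ m = u * y i ^ k := by
    intro i hi
    have h1 := congrArg (fun P : K[X] => P.eval (y i)) hPy
    simp only [Polynomial.eval_finsetSum, Polynomial.eval_mul, Polynomial.eval_C,
      Polynomial.eval_pow, Polynomial.eval_sub, Polynomial.eval_X] at h1
    rw [← h1]
    refine Finset.sum_congr rfl ?_
    intro j hj
    rw [h i hi j (hSU hj)]
  refine ⟨C u⁻¹ * ∑ j ∈ S, C (c j) * (X - C (x j)) ^ m, ?_, ?_, ?_⟩
  · intro l hl hl0
    apply hl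
    rw [Polynomial.coeff_C_mul, coeff_sum_pow, hl0]
    ring
  · intro i hi
    rw [Polynomial.eval_mul, Polynomial.eval_C, Polynomial.eval_finsetSum]
    simp only [Polynomial.eval_mul, Polynomial.eval_C,
      Polynomial.eval_pow, Polynomial.eval_sub, Polynomial.eval_X]
    rw [heval i hi, ← mul_assoc, inv_mul_cancel₀ hu0, one_mul]
  · rw [Polynomial.coeff_C_mul, coeff_sum_pow]
    have h1 := hc 0 (Nat.zero_le m)
    simp only [pow_zero, mul_one, Nat.sub_self, Nat.choose_self, Nat.cast_one, one_mul] at h1 ⊢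
    rw [h1]
    by_cases hkm : k = m
    · rw [if_pos (by omega), if_pos hkm, hu, hkm]
      simp
    · rw [if_neg (by omega), if_neg hkm, mul_zero]

/-- the data of the polynomial argument. -/
structure Data (K : Type*) [Field K] (p m n : ℕ) (σ : ℕ) (F : ℕ → K[X]) (U : Finset ι)
    (x y : ι → K) : Prop where
  hcard : U.card = n
  hmn : m + 1 ≤ n
  hx : Set.InjOn x U
  hy : Set.InjOn y U
  hσ : σ ∈ J p m
  hσ1 : 1 ≤ σ
  supp : ∀ k ∈ J p m, ∀ l, (F k).coeff l ≠ 0 → l ∈ J p m
  ev : ∀ k ∈ J p m, ∀ i ∈ U, (F k).eval (x i) = y i ^ k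
  top : ∀ k ∈ J p m, (F k).coeff m = if k = m then 1 else 0

section data

variable {p m n σ : ℕ} {F : ℕ → K[X]} {U : Finset ι} {x y : ι → K}

/-- the exponents `k` with `k`, `k + σ` in `J`. -/
def NN (p m σ : ℕ) : Finset ℕ := (J p m).filter (fun k => k + σ ∈ J p m)

/-- combination of the `F k`. -/
noncomputable def Phi (F : ℕ → K[X]) (N : Finset ℕ) (c : N → K) : K[X] :=
  ∑ k : N, C (c k) * F k

noncomputable def Psi (F : ℕ → K[X]) (N : Finset ℕ) (σ : ℕ) (c : N → K) : K[X] :=
  ∑ k : N, C (c k) * F (k + σ)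

theorem Phi_coeff (N : Finset ℕ) (c : N → K) (l : ℕ) :
    (Phi F N c).coeff l = ∑ k : N, c k * (F k).coeff l := by
  unfold Phi
  rw [Polynomial.finsetSum_coeff]
  exact Finset.sum_congr rfl (fun k _ => Polynomial.coeff_C_mul _)

theorem Psi_coeff (N : Finset ℕ) (c : N → K) (l : ℕ) :
    (Psi F N σ c).coeff l = ∑ k : N, c k * (F (k + σ)).coeff l := by
  unfold Psi
  rw [Polynomial.finsetSum_coeff]
  exact Finset.sum_congr rfl (fun k _ => Polynomial.coeff_C_mul _)

theorem mem_NN {k : ℕ} : k ∈ NN p m σ ↔ k ∈ J p m ∧ k + σ ∈ J p m := by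
  unfold NN
  rw [Finset.mem_filter]

theorem Phi_supp (D : Data K p m n σ F U x y) (c : NN p m σ → K) {l : ℕ}
    (hl : (Phi F (NN p m σ) c).coeff l ≠ 0) : l ∈ J p m := by
  by_contra hcon
  apply hl
  rw [Phi_coeff]
  refine Finset.sum_eq_zero ?_
  intro k _
  have : (F k).coeff l = 0 := by
    by_contra h
    exact hcon (D.supp k (mem_NN.mp k.2).1 l h)
  rw [this, mul_zero]

theorem Psi_supp (D : Data K p m n σ F U x y) (c : NN p m σ → K) {l : ℕ}
    (hl : (Psi F (NN p m σ) σ c).coeff l ≠ 0) : l ∈ J p m := by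
  by_contra hcon
  apply hl
  rw [Psi_coeff]
  refine Finset.sum_eq_zero ?_
  intro k _
  have : (F (k + σ)).coeff l = 0 := by
    by_contra h
    exact hcon (D.supp _ (mem_NN.mp k.2).2 l h)
  rw [this, mul_zero]

theorem natDegree_le_of_supp {P : K[X]} (h : ∀ l, P.coeff l ≠ 0 → l ∈ J p m) :
    P.natDegree ≤ m := by
  by_cases hP : P = 0
  · rw [hP]; simp
  · exact le_of_mem_J (h _ (by rw [Polynomial.coeff_natDegree]; exact leadingCoeff_ne_zero.mpr hP))

theorem Phi_top (D : Data K p m n σ F U x y) (c : NN p m σ → K) :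
    (Phi F (NN p m σ) c).coeff m = 0 := by
  rw [Phi_coeff]
  refine Finset.sum_eq_zero ?_
  intro k _
  have hk := mem_NN.mp k.2
  have hkm : (k : ℕ) ≠ m := by
    have := le_of_mem_J hk.2
    have := D.hσ1
    omega
  rw [D.top _ hk.1, if_neg hkm, mul_zero]

theorem Phi_eval (D : Data K p m n σ F U x y) (c : NN p m σ → K) {i : ι} (hi : i ∈ U) :
    (Phi F (NN p m σ) c).eval (x i) = ∑ k : NN p m σ, c k * y i ^ (k : ℕ) := by
  unfold Phi
  rw [Polynomial.eval_finsetSum]
  refine Finset.sum_congr rfl ?_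
  intro k _
  rw [Polynomial.eval_mul, Polynomial.eval_C, D.ev _ (mem_NN.mp k.2).1 i hi]

theorem Psi_eval (D : Data K p m n σ F U x y) (c : NN p m σ → K) {i : ι} (hi : i ∈ U) :
    (Psi F (NN p m σ) σ c).eval (x i) = y i ^ σ * (Phi F (NN p m σ) c).eval (x i) := by
  rw [Phi_eval D c hi]
  unfold Psi
  rw [Polynomial.eval_finsetSum, Finset.mul_sum]
  refine Finset.sum_congr rfl ?_
  intro k _
  rw [Polynomial.eval_mul, Polynomial.eval_C, D.ev _ (mem_NN.mp k.2).2 i hi, pow_add]
  ring

theorem eq_zero_of_eval {P : K[X]} (hx : Set.InjOn x U) (hP : P.natDegree < U.card)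
    (h : ∀ i ∈ U, P.eval (x i) = 0) : P = 0 := by
  refine Polynomial.eq_zero_of_degree_lt_of_eval_index_eq_zero U hx ?_ h
  exact lt_of_le_of_lt Polynomial.degree_le_natDegree (by exact_mod_cast hP)

theorem mul_Phi (D : Data K p m n σ F U x y) (c : NN p m σ → K)
    (hdeg : (F σ).natDegree + (Phi F (NN p m σ) c).natDegree < n) :
    F σ * Phi F (NN p m σ) c = Psi F (NN p m σ) σ c := by
  rw [← sub_eq_zero]
  refine eq_zero_of_eval (U := U) D.hx ?_ ?_
  · rw [D.hcard]
    refine lt_of_le_of_lt (Polynomial.natDegree_sub_le _ _) ?_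
    rw [max_lt_iff]
    constructor
    · exact lt_of_le_of_lt Polynomial.natDegree_mul_le hdeg
    · have := natDegree_le_of_supp (fun l hl => Psi_supp D c hl)
      have := D.hmn
      omega
  · intro i hi
    rw [Polynomial.eval_sub, Polynomial.eval_mul, D.ev _ D.hσ i hi, Psi_eval D c hi, sub_self]

theorem Phi_inj (D : Data K p m n σ F U x y) (c : NN p m σ → K)
    (h : Phi F (NN p m σ) c = 0) : c = 0 := by
  set P : K[X] := ∑ k : NN p m σ, C (c k) * X ^ (k : ℕ) with hP
  have hcoeff : ∀ l : ℕ, P.coeff l = ∑ k : NN p m σ, if l = (k : ℕ) then c k else 0 := by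
    intro l
    rw [hP, Polynomial.finsetSum_coeff]
    exact Finset.sum_congr rfl (fun k _ => Polynomial.coeff_C_mul_X_pow _ _ _)
  have hP0 : P = 0 := by
    refine eq_zero_of_eval (U := U) D.hy ?_ ?_
    · have h1 : P.natDegree ≤ m := by
        rw [hP]
        refine Polynomial.natDegree_sum_le_of_forall_le _ _ ?_
        intro k _
        refine (Polynomial.natDegree_C_mul_X_pow_le _ _).trans ?_
        exact le_of_mem_J (mem_NN.mp k.2).1
      rw [D.hcard]
      have := D.hmn
      omega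
    · intro i hi
      have h1 := Phi_eval D c hi
      rw [h, Polynomial.eval_zero] at h1
      rw [hP, Polynomial.eval_finsetSum]
      simp only [Polynomial.eval_mul, Polynomial.eval_C, Polynomial.eval_pow, Polynomial.eval_X]
      exact h1.symm
  funext k
  have h1 := hcoeff (k : ℕ)
  rw [hP0, Polynomial.coeff_zero, Finset.sum_eq_single k] at h1
  · rw [if_pos rfl] at h1
    exact h1.symm
  · intro j _ hj
    rw [if_neg]
    intro h2
    exact hj (Subtype.ext h2.symm)
  · intro h2
    exact absurd (Finset.mem_univ k) h2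

/-- the degree of a nonzero combination. -/
theorem Phi_degree (D : Data K p m n σ F U x y) (hF : F σ ≠ 0) (c : NN p m σ → K)
    (hc : Phi F (NN p m σ) c ≠ 0) :
    (Phi F (NN p m σ) c).natDegree ∈ J p m ∧ (Phi F (NN p m σ) c).natDegree ≠ m ∧
    ((Phi F (NN p m σ) c).natDegree + (F σ).natDegree < n →
      (Phi F (NN p m σ) c).natDegree + (F σ).natDegree ∈ J p m) := by
  have hlc : (Phi F (NN p m σ) c).coeff (Phi F (NN p m σ) c).natDegree ≠ 0 := by
    rw [Polynomial.coeff_natDegree]
    exact leadingCoeff_ne_zero.mpr hc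
  refine ⟨Phi_supp D c hlc, ?_, ?_⟩
  · intro h
    rw [h] at hlc
    exact hlc (Phi_top D c)
  · intro h
    have h1 := mul_Phi D c (by omega)
    have h2 : (F σ * Phi F (NN p m σ) c).natDegree =
        (F σ).natDegree + (Phi F (NN p m σ) c).natDegree := Polynomial.natDegree_mul hF hc
    have h3 : (Psi F (NN p m σ) σ c).coeff
        ((F σ).natDegree + (Phi F (NN p m σ) c).natDegree) ≠ 0 := by
      rw [← h1, ← h2, Polynomial.coeff_natDegree]
      exact leadingCoeff_ne_zero.mpr (mul_ne_zero hF hc)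
    rw [add_comm]
    exact Psi_supp D c h3

/-- the coefficient map. -/
noncomputable def Theta (F : ℕ → K[X]) (N T : Finset ℕ) : (N → K) →ₗ[K] (T → K) :=
  Matrix.mulVecLin (Matrix.of fun (t : T) (k : N) => (F k).coeff t)

theorem Theta_apply (N T : Finset ℕ) (c : N → K) (t : T) :
    Theta F N T c t = (Phi F N c).coeff t := by
  rw [Phi_coeff]
  unfold Theta
  rw [Matrix.mulVecLin_apply]
  simp only [Matrix.mulVec, dotProduct, Matrix.of_apply]
  exact Finset.sum_congr rfl (fun k _ => mul_comm _ _)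

theorem Theta_injective (D : Data K p m n σ F U x y) (hF : F σ ≠ 0) (T : Finset ℕ)
    (hT : ∀ k ∈ J p m, k ∉ T → k = m ∨
      (k + (F σ).natDegree < n ∧ k + (F σ).natDegree ∉ J p m)) :
    Function.Injective (Theta F (NN p m σ) T) := by
  rw [← LinearMap.ker_eq_bot, LinearMap.ker_eq_bot']
  intro c hc
  apply Phi_inj D c
  by_contra hne
  obtain ⟨h1, h2, h3⟩ := Phi_degree D hF c hne
  have hlc : (Phi F (NN p m σ) c).coeff (Phi F (NN p m σ) c).natDegree ≠ 0 := by
    rw [Polynomial.coeff_natDegree]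
    exact leadingCoeff_ne_zero.mpr hne
  by_cases hTk : (Phi F (NN p m σ) c).natDegree ∈ T
  · have h4 := Theta_apply (F := F) (NN p m σ) T c ⟨_, hTk⟩
    rw [hc] at h4
    exact hlc h4.symm
  · rcases hT _ h1 hTk with h4 | ⟨h4, h5⟩
    · exact h2 h4
    · exact h5 (h3 h4)

theorem card_NN (D : Data K p m n σ F U x y) : (NN p m σ).card + (bad p m σ).card = (J p m).card := by
  have _ := D
  unfold NN bad
  exact Finset.card_filter_add_card_filter_not _

theorem card_le_bad (D : Data K p m n σ F U x y) (hF : F σ ≠ 0) (B : Finset ℕ)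
    (hB : B ⊆ J p m)
    (hB2 : ∀ k ∈ B, k = m ∨
      (k + (F σ).natDegree < n ∧ k + (F σ).natDegree ∉ J p m)) :
    B.card ≤ (bad p m σ).card := by
  have hinj := Theta_injective D hF (J p m \ B) (fun k hk hkT => by
    rw [Finset.mem_sdiff, not_and, not_not] at hkT
    exact hB2 k (hkT hk))
  have h1 := LinearMap.finrank_le_finrank_of_injective hinj
  rw [Module.finrank_fintype_fun_eq_card, Module.finrank_fintype_fun_eq_card,
    Fintype.card_coe, Fintype.card_coe, Finset.card_sdiff_of_subset hB] at h1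
  have h2 := card_NN D
  have h3 := Finset.card_le_card hB
  omega

/-- the degree of `F σ` is smaller than `n - m`. -/
theorem degree_lt (hp : p.Prime) (D : Data K p m n σ F U x y) (hF : F σ ≠ 0) {ρ : ℕ}
    (hκ : ∀ i, i ≤ m / p ^ ρ → ¬ p ∣ (m / p ^ ρ).choose i)
    (hn : m + p ^ ρ + 1 ≤ n) (hbad : (bad p m σ).card ≤ (bad p m (p ^ ρ)).card) :
    m + (F σ).natDegree < n := by
  classical
  by_contra hcon
  have haJ : (F σ).natDegree ∈ J p m :=
    D.supp _ D.hσ _ (by rw [Polynomial.coeff_natDegree]; exact leadingCoeff_ne_zero.mpr hF)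
  set a := (F σ).natDegree with ha
  have ham := le_of_mem_J haJ
  have hw := window hp hκ haJ (by omega)
  set S := (J p m).filter (fun l => a ≤ l + p ^ ρ ∧ l < a) with hS
  have hSm : ∀ l ∈ S, l ∈ J p m ∧ a ≤ l + p ^ ρ ∧ l < a := by
    intro l hl
    rw [hS, Finset.mem_filter] at hl
    exact hl
  have hcard := card_le_bad D hF (insert m (S.image (fun l => m - l))) (by
      intro k hk
      rw [Finset.mem_insert, Finset.mem_image] at hk
      rcases hk with rfl | ⟨l, hl, rfl⟩
      · exact self_mem_J hp _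
      · exact symm_mem_J (hSm l hl).1) (by
      intro k hk
      rw [Finset.mem_insert, Finset.mem_image] at hk
      rcases hk with rfl | ⟨l, hl, rfl⟩
      · exact Or.inl rfl
      · right
        have h1 := hSm l hl
        have h2 := le_of_mem_J h1.1
        rw [← ha]
        refine ⟨by omega, fun h3 => ?_⟩
        have := le_of_mem_J h3
        omega)
  rw [Finset.card_insert_of_notMem, Finset.card_image_of_injOn] at hcard
  · omega
  · intro l1 h1 l2 h2 h
    have e1 := hSm l1 h1
    have e2 := hSm l2 h2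
    have e3 := le_of_mem_J e1.1
    have e4 := le_of_mem_J e2.1
    simp only at h
    omega
  · rw [Finset.mem_image]
    rintro ⟨l, hl, h⟩
    have h1 := hSm l hl
    have h2 := le_of_mem_J h1.1
    omega

/-- monomials of low degree are combinations. -/
theorem exists_monomial (D : Data K p m n σ F U x y) (hF : F σ ≠ 0)
    (hdeg : m + (F σ).natDegree < n) (hbad : (bad p m (F σ).natDegree).card = (bad p m σ).card)
    (hlow : ∀ k ∈ J p m, k < (F σ).natDegree → k + (F σ).natDegree ∈ J p m)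
    {k0 : ℕ} (hk0 : k0 ∈ J p m) (hk0a : k0 < (F σ).natDegree) :
    ∃ c, Phi F (NN p m σ) c = X ^ k0 := by
  set a := (F σ).natDegree with ha
  set T := (J p m).filter (fun k => k + a ∈ J p m) with hT
  have hinj := Theta_injective D hF T (fun k hk hkT => by
    right
    rw [hT, Finset.mem_filter, not_and] at hkT
    have h1 := le_of_mem_J hk
    exact ⟨by omega, hkT hk⟩)
  have hcardT : T.card + (bad p m a).card = (J p m).card := by
    rw [hT]; unfold bad
    exact Finset.card_filter_add_card_filter_not _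
  have hfin : Module.finrank K (NN p m σ → K) = Module.finrank K (T → K) := by
    rw [Module.finrank_fintype_fun_eq_card, Module.finrank_fintype_fun_eq_card,
      Fintype.card_coe, Fintype.card_coe]
    have h1 := card_NN D
    omega
  have hsurj := (LinearMap.injective_iff_surjective_of_finrank_eq_finrank hfin).mp hinj
  have hk0T : k0 ∈ T := by
    rw [hT, Finset.mem_filter]
    exact ⟨hk0, hlow k0 hk0 hk0a⟩
  obtain ⟨c, hc⟩ := hsurj (Pi.single ⟨k0, hk0T⟩ 1)
  refine ⟨c, ?_⟩
  have hcT : ∀ t ∈ T, (Phi F (NN p m σ) c).coeff t = if t = k0 then 1 else 0 := by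
    intro t ht
    have h1 := Theta_apply (F := F) (NN p m σ) T c ⟨t, ht⟩
    rw [hc] at h1
    rw [← h1, Pi.single_apply]
    by_cases h2 : t = k0
    · rw [if_pos h2, if_pos (Subtype.ext h2)]
    · rw [if_neg h2, if_neg (fun h3 => h2 (congrArg Subtype.val h3))]
  have hck0 : (Phi F (NN p m σ) c).coeff k0 = 1 := by
    rw [hcT k0 hk0T, if_pos rfl]
  have hne : Phi F (NN p m σ) c ≠ 0 := by
    intro h
    rw [h, Polynomial.coeff_zero] at hck0
    exact one_ne_zero hck0.symm
  obtain ⟨h1, -, h3⟩ := Phi_degree D hF c hne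
  have hlc : (Phi F (NN p m σ) c).coeff (Phi F (NN p m σ) c).natDegree ≠ 0 := by
    rw [Polynomial.coeff_natDegree]
    exact leadingCoeff_ne_zero.mpr hne
  set E := (Phi F (NN p m σ) c).natDegree with hE
  have hEm := le_of_mem_J h1
  have hET : E ∈ T := by
    rw [hT, Finset.mem_filter]
    exact ⟨h1, h3 (by omega)⟩
  have hEk : E = k0 := by
    by_contra h4
    rw [hcT E hET, if_neg h4] at hlc
    exact hlc rfl
  ext l
  rw [Polynomial.coeff_X_pow]
  by_cases hl : l = k0
  · rw [if_pos hl, hl, hck0]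
  · rw [if_neg hl]
    by_contra h5
    have h6 := Phi_supp D c h5
    have h7 : l ≤ E := Polynomial.le_natDegree_of_ne_zero h5
    have h8 : l ∈ T := by
      rw [hT, Finset.mem_filter]
      exact ⟨h6, hlow l h6 (by omega)⟩
    rw [hcT l h8, if_neg hl] at h5
    exact h5 rfl

/-- **The structure of `F σ`.** -/
theorem F_structure (D : Data K p m n σ F U x y) (hF : F σ ≠ 0)
    (hdeg : m + (F σ).natDegree < n) (hbad : (bad p m (F σ).natDegree).card = (bad p m σ).card)
    (hgood : Good p m (F σ).natDegree) :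
    ∃ α β : K, ∀ i ∈ U, y i ^ σ = α * x i ^ (F σ).natDegree + β := by
  obtain ⟨-, haJ, h3, h4⟩ := hgood
  set a := (F σ).natDegree with ha
  have hz : ∀ b, 1 ≤ b → b < a → (F σ).coeff b = 0 := by
    intro b hb1 hba
    by_contra hne
    have hbJ := D.supp _ D.hσ b hne
    obtain ⟨k, hk, hka, hkb⟩ := h3 b hbJ hb1 hba
    obtain ⟨c, hc⟩ := exists_monomial D hF hdeg hbad h4 hk hka
    have h5 := mul_Phi D c (by
      rw [hc, Polynomial.natDegree_X_pow]
      have := le_of_mem_J hk
      omega)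
    rw [hc] at h5
    have h6 : (Psi F (NN p m σ) σ c).coeff (b + k) ≠ 0 := by
      rw [← h5, Polynomial.coeff_mul_X_pow]
      exact hne
    have h7 := Psi_supp D c h6
    rw [add_comm] at h7
    exact hkb h7
  refine ⟨(F σ).coeff a, (F σ).coeff 0, ?_⟩
  intro i hi
  rw [← D.ev _ D.hσ i hi, Polynomial.eval_eq_sum_range, ← ha]
  rcases Nat.eq_zero_or_pos a with h0 | h0
  · -- degenerate case, impossible
    exfalso
    have hJ0 : (bad p m 0).card = 0 := by
      rw [Finset.card_eq_zero]
      ext k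
      rw [mem_bad]
      simp
    rw [h0, hJ0] at hbad
    have h7 := card_le_bad D hF {m} (by
      intro k hk
      rw [Finset.mem_singleton] at hk
      rw [hk]
      by_contra hmJ
      have h8 := D.hmn
      have h9 := haJ
      rw [mem_J, Nat.choose_self] at hmJ
      rw [not_not] at hmJ
      rw [mem_J] at h9
      exact h9 (dvd_trans hmJ (one_dvd _)))
      (fun k hk => Or.inl (Finset.mem_singleton.mp hk))
    rw [Finset.card_singleton] at h7
    omega
  · rw [Finset.sum_range_succ, Finset.sum_eq_single_of_mem 0 (Finset.mem_range.mpr h0)]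
    · ring
    · intro b hb hb0
      rw [hz b (by omega) (Finset.mem_range.mp hb), zero_mul]

end data

end Pool.Agent.Lib.MP_56e792_co
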