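import Mathlib
import Pool.Agent.Lib.MP_56e792_co.Poly

/-!
The abstract structure theorem and its application to generalized Paley graphs.
-/

set_option autoImplicit false

namespace Pool.Agent.Lib.MP_56e792_co

open Polynomial Finset

/-- **Abstract structure theorem.** -/
theorem abstract_main {K : Type*} [Field K] {ι : Type*} [DecidableEq ι] {p : ℕ} (hp : p.Prime)
    [CharP K p] {m ρ : ℕ} (hm : 1 ≤ m)
    (hκ : ∀ i, i ≤ m / p ^ ρ → ¬ p ∣ (m / p ^ ρ).choose i)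
    (U : Finset ι) (x y : ι → K) (hx : Set.InjOn x U)
    (hU : m + p ^ ρ + 1 ≤ U.card)
    (h : ∀ i ∈ U, ∀ j ∈ U, (y i - y j) ^ m = (x i - x j) ^ m) :
    ∃ (σ a : ℕ) (α β : K), Good p m σ ∧ Good p m a ∧
      (bad p m σ).card ≤ (bad p m 1).card ∧ (bad p m a).card ≤ (bad p m 1).card ∧
      ∀ i ∈ U, y i ^ σ = α * x i ^ a + β := by
  have hJ : ∀ k, k ∈ J p m ↔ (m.choose k : K) ≠ 0 := by
    intro k
    rw [mem_J, Ne, CharP.cast_eq_zero_iff K p]
  have hy : Set.InjOn y U := by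
    intro i hi j hj hij
    by_contra hne
    have h1 := h i hi j hj
    rw [hij, sub_self, zero_pow (by omega)] at h1
    have h2 : x i - x j ≠ 0 := sub_ne_zero.mpr (fun e => hne (hx hi hj e))
    exact pow_ne_zero m h2 h1.symm
  have hW : 0 < p ^ ρ := pow_pos hp.pos ρ
  obtain ⟨σ, hσ, hmin⟩ := comb hp m hm
  have hσ1 : 1 ≤ σ := by
    obtain ⟨⟨r, hr⟩, -⟩ := hσ
    rw [hr]; exact Nat.one_le_iff_ne_zero.mpr (pow_ne_zero _ hp.ne_zero)
  have htr : ∀ k, k ∈ J p m → ∃ F : K[X], (∀ l, F.coeff l ≠ 0 → l ∈ J p m) ∧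
      (∀ i ∈ U, F.eval (x i) = y i ^ k) ∧ F.coeff m = if k = m then 1 else 0 := by
    intro k hk
    obtain ⟨F, h1, h2, h3⟩ := transfer m U x y hy (by omega) h k (le_of_mem_J hk) ((hJ k).mp hk)
    exact ⟨F, fun l hl => (hJ l).mpr (h1 l hl), h2, h3⟩
  choose! F hF1 hF2 hF3 using htr
  have D : Data K p m U.card σ F U x y :=
    { hcard := rfl
      hmn := by omega
      hx := hx
      hy := hy
      hσ := hσ.2.1
      hσ1 := hσ1
      supp := hF1
      ev := hF2
      top := hF3 }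
  obtain ⟨v, hv, w, hw, hvw⟩ := Finset.one_lt_card.mp (show 1 < U.card by omega)
  have hpow : y v ^ σ ≠ y w ^ σ := by
    intro heq
    have : Fact p.Prime := ⟨hp⟩
    obtain ⟨⟨r, hr⟩, -⟩ := hσ
    rw [hr] at heq
    have h1 : (y v - y w) ^ p ^ r = 0 := by
      rw [sub_pow_char_pow, heq, sub_self]
    have h2 : y v - y w = 0 := pow_eq_zero_iff (pow_ne_zero _ hp.ne_zero) |>.mp h1
    exact hvw (hy hv hw (sub_eq_zero.mp h2))
  have hdeg1 : 1 ≤ (F σ).natDegree := by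
    rcases Nat.eq_zero_or_pos (F σ).natDegree with h0 | h0
    · exfalso
      have h1 := Polynomial.eq_C_of_natDegree_eq_zero h0
      have h2 := hF2 σ hσ.2.1 v hv
      have h3 := hF2 σ hσ.2.1 w hw
      rw [h1, Polynomial.eval_C] at h2 h3
      exact hpow (h2.symm.trans h3)
    · exact h0
  have hF0 : F σ ≠ 0 := by
    intro h0
    rw [h0, Polynomial.natDegree_zero] at hdeg1
    omega
  have hlt := degree_lt hp D hF0 hκ hU (hmin (p ^ ρ) hW).1
  obtain ⟨h1, h2⟩ := hmin _ hdeg1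
  have h3 : (bad p m (F σ).natDegree).card ≤ (bad p m σ).card := by
    refine card_le_bad D hF0 _ (Finset.filter_subset _ _) ?_
    intro k hk
    rw [mem_bad] at hk
    have h4 := le_of_mem_J hk.1
    exact Or.inr ⟨by omega, hk.2⟩
  have hgood := h2 h3
  obtain ⟨α, β, hαβ⟩ := F_structure D hF0 hlt (le_antisymm h3 h1) hgood
  have h4 := (hmin 1 (le_refl 1)).1
  exact ⟨σ, (F σ).natDegree, α, β, hσ, hgood, h4, h3.trans h4, hαβ⟩

end Pool.Agent.Lib.MP_56e792_co
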