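import Mathlib
import Pool.Agent.Lib.MP_56e792_co.Main

/-!
Large cliques of generalized Paley graphs of order `q ^ 2`.
-/

set_option autoImplicit false

namespace Pool.Agent.Lib.MP_56e792_co

open Polynomial Finset

/-- The generalized Paley graph of the field `F` with exponent `d`, exactly as in the frozen
statement. -/
abbrev GP (F : Type) [Field F] (d : ℕ) : SimpleGraph F :=
  SimpleGraph.fromRel (fun a b : F => ∃ z : F, z ^ d = a - b)

section GPart

variable {F : Type} [Field F]

theorem char_of_card {p e q : ℕ} (hp : p.Prime) (hq : q = p ^ e) (hcard : Nat.card F = q ^ 2) :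
    Finite F ∧ CharP F p := by
  have h1 : Finite F := Nat.finite_of_card_ne_zero (by
    rw [hcard, hq]; exact pow_ne_zero _ (pow_ne_zero _ hp.ne_zero))
  have := Fintype.ofFinite F
  have : Fact p.Prime := ⟨hp⟩
  have hc : Fintype.card F = p ^ (e * 2) := by
    rw [← Nat.card_eq_fintype_card, hcard, hq, ← pow_mul]
  exact ⟨h1, charP_of_card_eq_prime_pow hc⟩

theorem frob_sub {p e q : ℕ} (hp : p.Prime) (hq : q = p ^ e) (hcard : Nat.card F = q ^ 2)
    (a b : F) : (a - b) ^ q = a ^ q - b ^ q := by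
  have : Fact p.Prime := ⟨hp⟩
  have := (char_of_card hp hq hcard).2
  rw [hq]
  exact sub_pow_char_pow _ _ _

theorem frob_frob {q : ℕ} (hq0 : q ≠ 0) (hcard : Nat.card F = q ^ 2) (a : F) :
    (a ^ q) ^ q = a := by
  have : Finite F := Nat.finite_of_card_ne_zero (by rw [hcard]; exact pow_ne_zero _ hq0)
  have := Fintype.ofFinite F
  have := FiniteField.pow_card a
  rw [← Nat.card_eq_fintype_card, hcard, pow_two, pow_mul] at this
  exact this

theorem frob_neg {p e q : ℕ} (hp : p.Prime) (hq : q = p ^ e) (hcard : Nat.card F = q ^ 2)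
    (a : F) : (-a) ^ q = - a ^ q := by
  have hq0 : q ≠ 0 := by rw [hq]; exact pow_ne_zero _ hp.ne_zero
  have h := frob_sub hp hq hcard (0 : F) a
  rw [zero_sub, zero_pow hq0, zero_sub] at h
  exact h

/-- A nonzero element is a `d`-th power exactly if the `m`-th power of it is fixed by the
Frobenius map of order two, where `m * d = q + 1`. -/
theorem dth_power_iff {q m d : ℕ} (hq1 : 1 < q) (hcard : Nat.card F = q ^ 2)
    (hmd : m * d = q + 1) (c : F) (hc : c ≠ 0) :
    (c ^ q) ^ m = c ^ m ↔ ∃ z : F, z ^ d = c := by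
  have hq0 : q ≠ 0 := by omega
  have : Finite F := Nat.finite_of_card_ne_zero (by rw [hcard]; exact pow_ne_zero _ hq0)
  have := Fintype.ofFinite F
  constructor
  · intro h
    obtain ⟨g, hg⟩ := IsCyclic.exists_generator (α := Fˣ)
    obtain ⟨k, hk⟩ : ∃ k : ℕ, g ^ k = Units.mk0 c hc := by
      have := hg (Units.mk0 c hc)
      rw [← mem_powers_iff_mem_zpowers] at this
      exact this
    have hord : orderOf g = q ^ 2 - 1 := by
      rw [orderOf_eq_card_of_forall_mem_zpowers hg, Nat.card_units, hcard]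
    have h1 : g ^ (k * q * m) = g ^ (k * m) := by
      have : ((g ^ k) ^ q) ^ m = (g ^ k) ^ m := by
        rw [hk]
        apply Units.ext
        simpa using h
      rw [← pow_mul, ← pow_mul, ← pow_mul, ← mul_assoc] at this
      exact this
    have h2 : k * m ≡ k * q * m [MOD (q ^ 2 - 1)] := by
      rw [← hord]
      exact (pow_eq_pow_iff_modEq.mp h1).symm
    have hle : k * m ≤ k * q * m := by
      have : k * q * m = q * (k * m) := by ring
      rw [this]
      exact Nat.le_mul_of_pos_left _ (by omega)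
    have h3 : (q ^ 2 - 1) ∣ k * q * m - k * m := (Nat.modEq_iff_dvd' hle).mp h2
    have h4 : k * q * m - k * m = (q - 1) * (k * m) := by
      rw [Nat.sub_mul, one_mul]
      congr 1
      ring
    have h5 : q ^ 2 - 1 = (q - 1) * (m * d) := by
      rw [hmd]
      have : q ^ 2 - 1 = q ^ 2 - 1 ^ 2 := by simp
      rw [this, Nat.sq_sub_sq]
      ring
    rw [h4, h5] at h3
    have h6 : m * d ∣ k * m := Nat.dvd_of_mul_dvd_mul_left (by omega) h3
    have hm0 : 0 < m := by
      rcases Nat.eq_zero_or_pos m with h0 | h0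
      · rw [h0] at hmd; omega
      · exact h0
    have h7 : d ∣ k := by
      rw [mul_comm k m] at h6
      exact Nat.dvd_of_mul_dvd_mul_left hm0 h6
    obtain ⟨l, rfl⟩ := h7
    refine ⟨((g ^ l : Fˣ) : F), ?_⟩
    have h8 : (g ^ l) ^ d = Units.mk0 c hc := by
      rw [← pow_mul, mul_comm l d]; exact hk
    have h9 := congrArg (fun u : Fˣ => (u : F)) h8
    simpa using h9
  · rintro ⟨z, rfl⟩
    have h1 : ((z ^ d) ^ q) ^ m = (z ^ q) ^ (m * d) := by
      rw [← pow_mul, ← pow_mul, ← pow_mul]; congr 1; ring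
    have h2 : (z ^ d) ^ m = z ^ (m * d) := by
      rw [← pow_mul]; congr 1; ring
    rw [h1, h2, hmd, pow_succ, pow_succ, frob_frob hq0 hcard]
    ring

theorem adj_iff {p e q m d : ℕ} (hp : p.Prime) (hq : q = p ^ e) (hq1 : 1 < q)
    (hcard : Nat.card F = q ^ 2) (hmd : m * d = q + 1) (a b : F) (hab : a ≠ b) :
    (GP F d).Adj a b ↔ ((a - b) ^ q) ^ m = (a - b) ^ m := by
  rw [SimpleGraph.fromRel_adj]
  constructor
  · rintro ⟨-, h | h⟩
    · exact (dth_power_iff hq1 hcard hmd _ (sub_ne_zero.mpr hab)).mpr h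
    · have h1 := (dth_power_iff hq1 hcard hmd _ (sub_ne_zero.mpr hab.symm)).mpr h
      have h2 : a - b = -(b - a) := by ring
      rw [h2, frob_neg hp hq hcard, neg_pow, h1, neg_pow (b - a)]
  · intro h
    exact ⟨hab, Or.inl ((dth_power_iff hq1 hcard hmd _ (sub_ne_zero.mpr hab)).mp h)⟩

/-- The line through `v` in the direction `w` is a clique as soon as `w` is (plus or minus) a
`d`-th power. -/
theorem line_adj {p e q m d : ℕ} (hp : p.Prime) (hq : q = p ^ e) (hq1 : 1 < q)
    (hcard : Nat.card F = q ^ 2) (hmd : m * d = q + 1) (v w : F)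
    (hw : (w ^ q) ^ m = w ^ m) (s t : F) (hs : s ^ q = s) (ht : t ^ q = t)
    (hne : v + s * w ≠ v + t * w) : (GP F d).Adj (v + s * w) (v + t * w) := by
  rw [adj_iff hp hq hq1 hcard hmd _ _ hne]
  have h1 : v + s * w - (v + t * w) = (s - t) * w := by ring
  rw [h1, mul_pow, mul_pow, mul_pow, frob_sub hp hq hcard, hs, ht, hw]

/-- The fixed points of the Frobenius map of order two. -/
theorem card_fixed {q : ℕ} (hq1 : 1 < q) (hcard : Nat.card F = q ^ 2) :
    {t : F | t ^ q = t}.ncard = q := by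
  have hq0 : q ≠ 0 := by omega
  have : Finite F := Nat.finite_of_card_ne_zero (by rw [hcard]; exact pow_ne_zero _ hq0)
  have := Fintype.ofFinite F
  have h1 : Nat.card (powMonoidHom (q - 1) : Fˣ →* Fˣ).ker = q - 1 := by
    rw [IsCyclic.card_powMonoidHom_ker, Nat.card_units, hcard]
    have : q ^ 2 - 1 = (q - 1) * (q + 1) := by
      have : q ^ 2 - 1 = q ^ 2 - 1 ^ 2 := by simp
      rw [this, Nat.sq_sub_sq]
      ring
    rw [this, Nat.gcd_mul_right_left]
  have h2 : {t : F | t ^ q = t} = insert 0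
      ((fun u : Fˣ => (u : F)) '' ((powMonoidHom (q - 1) : Fˣ →* Fˣ).ker : Set Fˣ)) := by
    ext t
    simp only [Set.mem_ofPred_eq, Set.mem_insert_iff, Set.mem_image, SetLike.mem_coe,
      MonoidHom.mem_ker, powMonoidHom_apply]
    constructor
    · intro ht
      by_cases h0 : t = 0
      · exact Or.inl h0
      · refine Or.inr ⟨Units.mk0 t h0, ?_, rfl⟩
        apply Units.ext
        simp only [Units.val_pow_eq_pow_val, Units.val_mk0, Units.val_one]
        have h3 : t ^ (q - 1) * t = 1 * t := by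
          rw [← pow_succ, Nat.sub_add_cancel (by omega), one_mul]; exact ht
        exact mul_right_cancel₀ h0 h3
    · rintro (rfl | ⟨u, hu, rfl⟩)
      · exact zero_pow hq0
      · have h3 := congrArg (fun u : Fˣ => (u : F)) hu
        simp only [Units.val_pow_eq_pow_val, Units.val_one] at h3
        calc (u : F) ^ q = (u : F) ^ (q - 1) * u := by
              rw [← pow_succ, Nat.sub_add_cancel (by omega)]
          _ = u := by rw [h3, one_mul]
  rw [h2, Set.ncard_insert_of_notMem, Set.ncard_image_of_injective _ Units.val_injective]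
  · have : ((powMonoidHom (q - 1) : Fˣ →* Fˣ).ker : Set Fˣ).ncard = q - 1 := by
      rw [← Nat.card_coe_set_eq]; exact h1
    rw [this]; omega
  · rintro ⟨u, -, hu⟩
    exact u.ne_zero hu

theorem pow_pow_inj {p r : ℕ} (hp : p.Prime) [CharP F p] {a b : F}
    (h : a ^ p ^ r = b ^ p ^ r) : a = b := by
  have : Fact p.Prime := ⟨hp⟩
  have h1 : (a - b) ^ p ^ r = 0 := by rw [sub_pow_char_pow, h, sub_self]
  exact sub_eq_zero.mp ((pow_eq_zero_iff (pow_ne_zero _ hp.ne_zero)).mp h1)

theorem fixed_gcd {p j k : ℕ} {w : F} (h1 : w ^ p ^ j = w) (h2 : w ^ p ^ k = w) :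
    w ^ p ^ (j.gcd k) = w := by
  have e : ∀ n : ℕ, (fun t : F => t ^ p)^[n] w = w ^ p ^ n := by
    intro n
    induction n with
    | zero => simp
    | succ n ih => rw [Function.iterate_succ_apply', ih, ← pow_mul, ← pow_succ]
  have g1 : Function.IsPeriodicPt (fun t : F => t ^ p) j w := by
    unfold Function.IsPeriodicPt Function.IsFixedPt
    rw [e, h1]
  have g2 : Function.IsPeriodicPt (fun t : F => t ^ p) k w := by
    unfold Function.IsPeriodicPt Function.IsFixedPt
    rw [e, h2]
  have g3 := g1.gcd g2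
  unfold Function.IsPeriodicPt Function.IsFixedPt at g3
  rw [e] at g3
  exact g3

theorem card_le_of_fixed {N : ℕ} (hN : 1 < N) (C : Finset F) (f : F → F)
    (hinj : Set.InjOn f C) (h : ∀ u ∈ C, f u ^ N = f u) : C.card ≤ N := by
  classical
  have h0 : (X ^ N - X : F[X]) ≠ 0 := FiniteField.X_pow_card_sub_X_ne_zero F hN
  have h1 : C.card ≤ (X ^ N - X : F[X]).roots.toFinset.card := by
    refine Finset.card_le_card_of_injOn f ?_ hinj
    intro u hu
    rw [Finset.mem_coe, Multiset.mem_toFinset, Polynomial.mem_roots h0, Polynomial.IsRoot.def,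
      Polynomial.eval_sub, Polynomial.eval_pow, Polynomial.eval_X, h u hu, sub_self]
  calc C.card ≤ (X ^ N - X : F[X]).roots.toFinset.card := h1
    _ ≤ Multiset.card (X ^ N - X : F[X]).roots := Multiset.toFinset_card_le _
    _ ≤ (X ^ N - X : F[X]).natDegree := Polynomial.card_roots' _
    _ = N := FiniteField.X_pow_card_sub_X_natDegree_eq F hN

/-- Large cliques are collinear. -/
theorem clique_collinear {p e q m d ρ : ℕ} (hp : p.Prime) (he : 1 ≤ e) (hq : q = p ^ e)
    (hcard : Nat.card F = q ^ 2) (hd : 2 ≤ d) (hmd : m * d = q + 1)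
    (hκ : ∀ i, i ≤ m / p ^ ρ → ¬ p ∣ (m / p ^ ρ).choose i)
    (C : Finset F) (hC : (GP F d).IsClique (C : Set F)) (hcardC : m + p ^ ρ + 1 ≤ C.card)
    (hbig : ρ = 0 ∨ q ^ 2 < C.card ^ 3)
    (v a b : F) (hv : v ∈ C) (ha : a ∈ C) (hb : b ∈ C) (hvb : v ≠ b) :
    (a - v) ^ q * (b - v) = (a - v) * (b - v) ^ q := by
  classical
  obtain ⟨hfin, hchar⟩ := char_of_card hp hq hcard
  have hfact : Fact p.Prime := ⟨hp⟩
  have hq1 : 1 < q := by rw [hq]; exact Nat.one_lt_pow (by omega) hp.one_lt
  have hq0 : q ≠ 0 := by omega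
  have hm0 : 1 ≤ m := by
    rcases Nat.eq_zero_or_pos m with h0 | h0
    · rw [h0] at hmd; omega
    · exact h0
  have hmq : m < q := by nlinarith
  obtain ⟨σ, τ, α, β, hσ, hτ, hσ1, hτ1, hrel⟩ := abstract_main (K := F) hp hm0 hκ
    C (fun u : F => u) (fun u : F => u ^ q) (fun i _ j _ h => h) hcardC (by
      intro i hi j hj
      by_cases hij : i = j
      · rw [hij, sub_self, sub_self]
      · have := (adj_iff hp hq hq1 hcard hmd i j hij).mp (hC hi hj hij)
        rw [frob_sub hp hq hcard] at this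
        exact this)
  obtain ⟨⟨s, hs⟩, hσJ, -⟩ := hσ
  obtain ⟨⟨r, hr⟩, hτJ, -⟩ := hτ
  have hσm := le_of_mem_J hσJ
  have hτm := le_of_mem_J hτJ
  -- the relation for differences
  have hdiff : ∀ u ∈ C, ((u - v) ^ q) ^ σ = α * (u - v) ^ τ := by
    intro u hu
    have h1 := hrel u hu
    have h2 := hrel v hv
    rw [frob_sub hp hq hcard, hs, sub_pow_char_pow, ← hs, h1, h2, hr, sub_pow_char_pow]
    ring
  have hza := hdiff a ha
  have hzb := hdiff b hb
  have hb0 : b - v ≠ 0 := sub_ne_zero.mpr hvb.symm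
  by_cases hst : σ = τ
  · rw [← hst] at hza hzb
    apply pow_pow_inj (p := p) (r := s) hp
    rw [← hs, mul_pow, mul_pow, hza, hzb]
    ring
  · exfalso
    have hρ : ρ ≠ 0 := by
      intro h0
      rw [h0, pow_zero, Nat.div_one] at hκ
      have h1 := bad_full hp hm0 hκ (show 1 ≤ σ by
        rw [hs]; exact Nat.one_le_iff_ne_zero.mpr (pow_ne_zero _ hp.ne_zero)) hσ1
      have h2 := bad_full hp hm0 hκ (show 1 ≤ τ by
        rw [hr]; exact Nat.one_le_iff_ne_zero.mpr (pow_ne_zero _ hp.ne_zero)) hτ1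
      exact hst (h1.trans h2.symm)
    have hbig' : q ^ 2 < C.card ^ 3 := hbig.resolve_left hρ
    have hse : s < e := by
      rw [hs] at hσm
      rw [hq] at hmq
      exact (Nat.pow_lt_pow_iff_right hp.one_lt).mp (lt_of_le_of_lt hσm hmq)
    have hre : r < e := by
      rw [hr] at hτm
      rw [hq] at hmq
      exact (Nat.pow_lt_pow_iff_right hp.one_lt).mp (lt_of_le_of_lt hτm hmq)
    have hsr : s ≠ r := by
      intro h; apply hst; rw [hs, hr, h]
    -- every quotient is fixed by a power of the Frobenius map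
    have hfix : ∀ u ∈ C, ((u - v) / (b - v)) ^ p ^ ((e + s - r).gcd (2 * e)) =
        (u - v) / (b - v) := by
      intro u hu
      apply fixed_gcd
      · apply pow_pow_inj (p := p) (r := r) hp
        have h1 := hdiff u hu
        have hα : α ≠ 0 := by
          intro h0
          rw [h0, zero_mul] at hzb
          have h5 : (b - v) ^ q = 0 := (pow_eq_zero_iff (by rw [hs]; exact pow_ne_zero _ hp.ne_zero)).mp hzb
          exact hb0 ((pow_eq_zero_iff hq0).mp h5)
        have h2 : ((u - v) / (b - v)) ^ (q * σ) = ((u - v) / (b - v)) ^ τ := by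
          rw [pow_mul, div_pow, div_pow, h1, hzb, div_pow, mul_div_mul_left _ _ hα]
        rw [hq, hs, hr, ← pow_add] at h2
        rw [← pow_mul, ← pow_add, Nat.sub_add_cancel (by omega)]
        exact h2
      · have h1 := frob_frob hq0 hcard ((u - v) / (b - v))
        rw [← pow_mul, hq, ← pow_add, ← two_mul] at h1
        exact h1
    set g := (e + s - r).gcd (2 * e) with hg
    have hg1 : g ∣ e + s - r := Nat.gcd_dvd_left _ _
    have hg2 : g ∣ 2 * e := Nat.gcd_dvd_right _ _
    have hgpos : 0 < g := Nat.gcd_pos_of_pos_right _ (by omega)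
    have hcardle : C.card ≤ p ^ g := by
      refine card_le_of_fixed (Nat.one_lt_pow hgpos.ne' hp.one_lt) C
        (fun u => (u - v) / (b - v)) ?_ hfix
      intro u1 _ u2 _ h
      simp only at h
      have h1 := (div_left_inj' hb0).mp h
      exact sub_left_injective h1
    have h3g : 3 * g ≤ 2 * e := by
      obtain ⟨t, ht⟩ := hg2
      have ht0 : t ≠ 0 := by rintro rfl; omega
      have ht1 : t ≠ 1 := by
        rintro rfl
        rw [mul_one] at ht
        have := Nat.le_of_dvd (by omega) hg1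
        omega
      have ht2 : t ≠ 2 := by
        rintro rfl
        have hge : g = e := by omega
        rw [hge] at hg1
        obtain ⟨k, hk⟩ := hg1
        have hk1 : k = 1 := by
          have h1 : k ≠ 0 := by rintro rfl; omega
          have h2 : ¬ 2 ≤ k := by
            intro h2
            have : e * 2 ≤ e * k := Nat.mul_le_mul_left _ h2
            omega
          omega
        rw [hk1] at hk
        omega
      have ht3 : 3 ≤ t := by omega
      rw [ht, mul_comm]
      exact Nat.mul_le_mul_left _ ht3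
    have hfinal : C.card ^ 3 ≤ q ^ 2 := by
      calc C.card ^ 3 ≤ (p ^ g) ^ 3 := Nat.pow_le_pow_left hcardle 3
        _ = p ^ (3 * g) := by rw [← pow_mul]; congr 1; ring
        _ ≤ p ^ (2 * e) := Nat.pow_le_pow_right hp.pos h3g
        _ = q ^ 2 := by rw [hq, ← pow_mul]; congr 1; ring
    omega

/-- Large cliques lie on a line. -/
theorem clique_on_line {p e q m d ρ : ℕ} (hp : p.Prime) (he : 1 ≤ e) (hq : q = p ^ e)
    (hcard : Nat.card F = q ^ 2) (hd : 2 ≤ d) (hmd : m * d = q + 1)
    (hκ : ∀ i, i ≤ m / p ^ ρ → ¬ p ∣ (m / p ^ ρ).choose i)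
    (C : Finset F) (hC : (GP F d).IsClique (C : Set F)) (hcardC : m + p ^ ρ + 1 ≤ C.card)
    (hbig : ρ = 0 ∨ q ^ 2 < C.card ^ 3) :
    ∃ v w : F, w ≠ 0 ∧ (w ^ q) ^ m = w ^ m ∧
      (C : Set F) ⊆ {u : F | ∃ t : F, t ^ q = t ∧ u = v + t * w} := by
  have hq1 : 1 < q := by rw [hq]; exact Nat.one_lt_pow (by omega) hp.one_lt
  have hq0 : q ≠ 0 := by omega
  have hW : 0 < p ^ ρ := pow_pos hp.pos ρ
  obtain ⟨v, hv, b, hb, hvb⟩ := Finset.one_lt_card.mp (show 1 < C.card by omega)
  have hw : b - v ≠ 0 := sub_ne_zero.mpr hvb.symm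
  refine ⟨v, b - v, hw, ?_, ?_⟩
  · exact (adj_iff hp hq hq1 hcard hmd b v hvb.symm).mp (hC hb hv hvb.symm)
  · intro a ha
    refine ⟨(a - v) / (b - v), ?_, ?_⟩
    · have h := clique_collinear hp he hq hcard hd hmd hκ C hC hcardC hbig v a b hv ha hb hvb
      rw [div_pow, div_eq_div_iff (pow_ne_zero q hw) hw]
      exact h
    · rw [div_mul_cancel₀ _ hw]; ring

/-- A maximal clique is small or a whole line. -/
theorem maximal_clique_dichotomy {p e q m d ρ : ℕ} (hp : p.Prime) (he : 1 ≤ e) (hq : q = p ^ e)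
    (hcard : Nat.card F = q ^ 2) (hd : 2 ≤ d) (hmd : m * d = q + 1)
    (hκ : ∀ i, i ≤ m / p ^ ρ → ¬ p ∣ (m / p ^ ρ).choose i)
    (C : Finset F)
    (hC : Maximal (fun s : Finset F => (GP F d).IsClique (s : Set F)) C) :
    C.card ≤ m + p ^ ρ ∨ (ρ ≠ 0 ∧ C.card ^ 3 ≤ q ^ 2) ∨ (C.card = q ∧ ∃ v w : F, w ≠ 0 ∧
      (C : Set F) = {u : F | ∃ t : F, t ^ q = t ∧ u = v + t * w}) := by
  classical
  by_cases hle : C.card ≤ m + p ^ ρ
  · exact Or.inl hle
  right
  by_cases hbig : ρ = 0 ∨ q ^ 2 < C.card ^ 3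
  swap
  · rw [not_or, not_lt] at hbig
    exact Or.inl hbig
  right
  have hq1 : 1 < q := by rw [hq]; exact Nat.one_lt_pow (by omega) hp.one_lt
  have hq0 : q ≠ 0 := by omega
  have : Finite F := Nat.finite_of_card_ne_zero (by rw [hcard]; exact pow_ne_zero _ hq0)
  obtain ⟨v, w, hw, hwm, hsub⟩ :=
    clique_on_line hp he hq hcard hd hmd hκ C hC.prop (by omega) hbig
  have hfin : {u : F | ∃ t : F, t ^ q = t ∧ u = v + t * w}.Finite := Set.toFinite _
  have hclique : (GP F d).IsClique {u : F | ∃ t : F, t ^ q = t ∧ u = v + t * w} := by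
    rintro x ⟨s, hs, rfl⟩ y ⟨t, ht, rfl⟩ hne
    exact line_adj hp hq hq1 hcard hmd v w hwm s t hs ht hne
  have hle2 : C ≤ hfin.toFinset := by
    intro z hz
    rw [Set.Finite.mem_toFinset]
    exact hsub hz
  have h2 : hfin.toFinset ≤ C := hC.le_of_ge (by
    simp only [Set.Finite.coe_toFinset]; exact hclique) hle2
  have heq : C = hfin.toFinset := le_antisymm hle2 h2
  have hset : (C : Set F) = {u : F | ∃ t : F, t ^ q = t ∧ u = v + t * w} := by
    rw [heq, Set.Finite.coe_toFinset]
  refine ⟨?_, v, w, hw, hset⟩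
  have h3 : {u : F | ∃ t : F, t ^ q = t ∧ u = v + t * w}
      = (fun t : F => v + t * w) '' {t : F | t ^ q = t} := by
    ext u
    simp only [Set.mem_ofPred_eq, Set.mem_image]
    constructor
    · rintro ⟨t, ht, rfl⟩; exact ⟨t, ht, rfl⟩
    · rintro ⟨t, ht, rfl⟩; exact ⟨t, ht, rfl⟩
  have h4 : Function.Injective (fun t : F => v + t * w) := by
    intro s t hst
    have : s * w = t * w := add_left_cancel hst
    exact mul_right_cancel₀ hw this
  rw [← Set.ncard_coe_finset, hset, h3, Set.ncard_image_of_injective _ h4,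
    card_fixed hq1 hcard]

end GPart

end Pool.Agent.Lib.MP_56e792_co
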